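import Pool.Agent.P.MP_9b2cf8_gt.Main

namespace Pool.Agent.Results.MP_9b2cf8_gt.ZFour

open Pool.Agent.P.MP_9b2cf8_gt

/-- Equivalence of free knots is decidable on the Gauss diagrams that reduce, by moves that do
not increase the number of chords, to a diagram in which every even chord is linked with an odd
number of even chords. The equivalence itself allows all moves and all intermediate diagrams. -/
theorem result : ∃ f : List ℕ × List ℕ → Bool, Computable f ∧
    ∀ v w : List ℕ, ZStar v → ZStar w → (f (v, w) = true ↔ SameKnot v w) := by
  obtain ⟨f, hf, h⟩ := join_computable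
  exact ⟨f, hf, fun v w hv hw => (h v w hv.1 hw.1).trans (same_iff_join hv hw).symm⟩

end Pool.Agent.Results.MP_9b2cf8_gt.ZFour
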